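import Mathlib

/-!
# Optimal curvature pinching of Heintze groups of Carnot type (MP_1a0a4b_gt, Q1)

A left-invariant Riemannian metric on the Lie group `G` is an inner product `B` on its Lie algebra
`g`; its Levi-Civita connection is the bilinear map `D` on `g` which is torsion free and metric, and
its sectional curvatures are those of `D`, computed on `g`.

If `H` is orthogonal to `n = [g, g]`, then `ad H` has on `n` the eigenvalues `c, 2 c, …, s c`
(`H = c A + X`). An eigenvector `v` of `ad H` with eigenvalue `λ` satisfies `K(v, H) |H|² ≥ -λ²`, and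
an eigenvector `w` of the adjoint of `ad H` with eigenvalue `λ` satisfies `K(w, H) |H|² ≤ -λ²`. With
`λ = c` in the first inequality and `λ = s c` in the second we get `b ≥ - c² / |H|²` and
`a ≤ - s² c² / |H|²`. No lattice is needed.
-/

set_option autoImplicit false

namespace Pool.Agent.Results.MP_1a0a4b_gt.PinchingBound

open Submodule

variable {g : Type} [LieRing g] [LieAlgebra ℝ g]

/-- `g` is the Lie algebra of a Heintze group of Carnot type whose derived group has step `s`:
`g = ℝ A ⊕ V₁ ⊕ ⋯ ⊕ V_s` (internal direct sum, `A ≠ 0`), `[A, x] = i x` for `x ∈ V_i`,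
`[V₁, V_i] = V_{i+1}` for `1 ≤ i < s`, `[V₁, V_s] = 0`, `V_s ≠ 0`. (`V_i` is not used for `i = 0` and
`i > s`.) -/
structure CarnotHeintze (g : Type) [LieRing g] [LieAlgebra ℝ g] (s : ℕ) where
  /-- the element acting by the dilations -/
  A : g
  /-- the layers -/
  V : ℕ → Submodule ℝ g
  A_ne : A ≠ 0
  one_le : 1 ≤ s
  isInternal : DirectSum.IsInternal
    (fun o : Option (Fin s) => o.elim (span ℝ {A}) fun i => V (i.val + 1))
  bracket_A : ∀ i, 1 ≤ i → i ≤ s → ∀ x ∈ V i, ⁅A, x⁆ = (i : ℝ) • x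
  bracket_V : ∀ i, 1 ≤ i → i < s → span ℝ {z | ∃ x ∈ V 1, ∃ y ∈ V i, ⁅x, y⁆ = z} = V (i + 1)
  bracket_top : ∀ x ∈ V 1, ∀ y ∈ V s, ⁅x, y⁆ = 0
  top_ne : V s ≠ ⊥

/-- inner products on `g` (left-invariant Riemannian metrics) -/
structure IsInner (B : LinearMap.BilinForm ℝ g) : Prop where
  symm : ∀ x y, B x y = B y x
  pos : ∀ x, x ≠ 0 → 0 < B x x

/-- `D x y = ∇_x y` is the Levi-Civita connection of the left-invariant metric `B` -/
structure IsLeviCivita (B : LinearMap.BilinForm ℝ g) (D : g →ₗ[ℝ] g →ₗ[ℝ] g) : Prop where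
  torsion_free : ∀ x y, D x y - D y x = ⁅x, y⁆
  metric : ∀ x y z, B (D x y) z + B y (D x z) = 0

/-- the curvature operator `R(x, y) z = ∇_x ∇_y z - ∇_y ∇_x z - ∇_[x,y] z` -/
def curv (D : g →ₗ[ℝ] g →ₗ[ℝ] g) (x y z : g) : g :=
  D x (D y z) - D y (D x z) - D ⁅x, y⁆ z

/-- the sectional curvature of the plane spanned by `x` and `y` -/
noncomputable def sec (B : LinearMap.BilinForm ℝ g) (D : g →ₗ[ℝ] g →ₗ[ℝ] g) (x y : g) : ℝ :=
  B (curv D x y y) x / (B x x * B y y - B x y ^ 2)

/-- All sectional curvatures of the left-invariant metric `B` lie in `[a, b]`. -/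
def SecIn (B : LinearMap.BilinForm ℝ g) (a b : ℝ) : Prop :=
  ∀ D : g →ₗ[ℝ] g →ₗ[ℝ] g, IsLeviCivita B D →
    ∀ x y : g, LinearIndependent ℝ ![x, y] → a ≤ sec B D x y ∧ sec B D x y ≤ b

section lc

variable {B : LinearMap.BilinForm ℝ g} {D : g →ₗ[ℝ] g →ₗ[ℝ] g}

theorem koszul (hB : IsInner B) (h : IsLeviCivita B D) (x y z : g) :
    2 * B (D x y) z = B ⁅x, y⁆ z - B ⁅y, z⁆ x + B ⁅z, x⁆ y := by
  rw [← h.torsion_free x y, ← h.torsion_free y z, ← h.torsion_free z x]
  simp only [map_sub, LinearMap.sub_apply]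
  have h1 := h.metric x y z
  have h2 := h.metric y x z
  have h3 := h.metric z x y
  have s1 := hB.symm x (D z y)
  have s2 := hB.symm y (D x z)
  have s3 := hB.symm x (D y z)
  linarith

theorem nondeg (hB : IsInner B) : B.Nondegenerate := by
  have h1 : ∀ x, (∀ y, B x y = 0) → x = 0 := by
    intro x hx
    by_contra hne
    exact (hB.pos x hne).ne' (hx x)
  refine ⟨h1, fun x hx => h1 x fun y => ?_⟩
  rw [hB.symm]
  exact hx y

theorem restrict_nondeg (hB : IsInner B) (W : Submodule ℝ g) : (B.restrict W).Nondegenerate := by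
  have h1 : ∀ x : W, (∀ y : W, B.restrict W x y = 0) → x = 0 := by
    intro x hx
    by_contra hne
    have h2 : (x : g) ≠ 0 := fun h => hne (Subtype.ext h)
    exact (hB.pos x h2).ne' (hx x)
  refine ⟨h1, fun x hx => h1 x fun y => ?_⟩
  have := hx y
  simp only [LinearMap.BilinForm.restrict_apply, LinearMap.domRestrict_apply] at this ⊢
  rw [hB.symm]
  exact this

/-- The Levi-Civita connection exists. -/
theorem exists_lc [FiniteDimensional ℝ g] (hB : IsInner B) : ∃ D, IsLeviCivita B D := by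
  have hnd := nondeg hB
  let e := B.toDual hnd
  have he : ∀ (φ : Module.Dual ℝ g) (z : g), B (e.symm φ) z = φ z := fun φ z =>
    LinearMap.BilinForm.apply_toDual_symm_apply (hB := hnd) φ z
  let κ : g → g → Module.Dual ℝ g := fun x y =>
    { toFun := fun z => (1 / 2 : ℝ) * (B ⁅x, y⁆ z - B ⁅y, z⁆ x + B ⁅z, x⁆ y)
      map_add' := by
        intro z w
        simp only [lie_add, add_lie, map_add, LinearMap.add_apply]
        ring
      map_smul' := by
        intro c z
        simp only [lie_smul, smul_lie, map_smul, LinearMap.smul_apply, smul_eq_mul,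
          RingHom.id_apply]
        ring }
  have hκ : ∀ x y z, κ x y z = (1 / 2 : ℝ) * (B ⁅x, y⁆ z - B ⁅y, z⁆ x + B ⁅z, x⁆ y) :=
    fun _ _ _ => rfl
  let D : g →ₗ[ℝ] g →ₗ[ℝ] g := LinearMap.mk₂ ℝ (fun x y => e.symm (κ x y))
    (by
      intro x x' y
      rw [← map_add]
      congr 1
      ext z
      simp only [hκ, LinearMap.add_apply, lie_add, add_lie, map_add]
      ring)
    (by
      intro c x y
      rw [← map_smul]
      congr 1
      ext z
      simp only [hκ, LinearMap.smul_apply, lie_smul, smul_lie, map_smul, smul_eq_mul]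
      ring)
    (by
      intro x y y'
      rw [← map_add]
      congr 1
      ext z
      simp only [hκ, LinearMap.add_apply, lie_add, add_lie, map_add]
      ring)
    (by
      intro c x y
      rw [← map_smul]
      congr 1
      ext z
      simp only [hκ, LinearMap.smul_apply, lie_smul, smul_lie, map_smul, smul_eq_mul]
      ring)
  have hD : ∀ x y z, B (D x y) z = (1 / 2 : ℝ) * (B ⁅x, y⁆ z - B ⁅y, z⁆ x + B ⁅z, x⁆ y) := by
    intro x y z
    exact he (κ x y) z
  refine ⟨D, ⟨?_, ?_⟩⟩
  · intro x y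
    have h1 : ∀ z, B (D x y - D y x - ⁅x, y⁆) z = 0 := by
      intro z
      simp only [map_sub, LinearMap.sub_apply, hD]
      rw [← lie_skew x y, ← lie_skew z x, ← lie_skew z y]
      simp only [map_neg, LinearMap.neg_apply]
      ring
    exact sub_eq_zero.1 (hnd.1 _ h1)
  · intro x y z
    rw [hB.symm y (D x z), hD, hD]
    rw [← lie_skew z y, ← lie_skew x z, ← lie_skew x y]
    simp only [map_neg, LinearMap.neg_apply]
    ring

/-- The Levi-Civita connection is unique. -/
theorem unique_lc (hB : IsInner B) {D D' : g →ₗ[ℝ] g →ₗ[ℝ] g} (h : IsLeviCivita B D)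
    (h' : IsLeviCivita B D') : D = D' := by
  ext x y
  have h1 : ∀ z, B (D x y - D' x y) z = 0 := by
    intro z
    simp only [map_sub, LinearMap.sub_apply]
    have := koszul hB h x y z
    have := koszul hB h' x y z
    linarith
  exact sub_eq_zero.1 ((nondeg hB).1 _ h1)

/-- If `H` is orthogonal to all brackets, then `B (R(x,H)H, x) = |S x|² - 2 B (S x, [H, x])` with
`S = - ∇ H`, which is symmetric: `2 B (S x, y) = B ([H, x], y) + B ([H, y], x)`. -/
theorem curv_H (hB : IsInner B) (h : IsLeviCivita B D) {H : g}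
    (hH : ∀ x y : g, B ⁅x, y⁆ H = 0) (x : g) :
    B (curv D x H H) x = B (D x H) (D x H) + 2 * B (D x H) ⁅H, x⁆ ∧
    (∀ y z, 2 * B (D y H) z = - B ⁅H, y⁆ z - B ⁅H, z⁆ y) := by
  have hHH : D H H = 0 := by
    refine (nondeg hB).1 _ fun z => ?_
    have := koszul hB h H H z
    have h1 := hH H z
    have h2 := hH z H
    simp only [lie_self, map_zero, LinearMap.zero_apply] at this
    linarith
  have hS : ∀ y z, 2 * B (D y H) z = - B ⁅H, y⁆ z - B ⁅H, z⁆ y := by
    intro y z
    have h1 := koszul hB h y H z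
    have h2 := hH z y
    rw [← lie_skew y H] at h1
    simp only [map_neg, LinearMap.neg_apply] at h1
    linarith
  refine ⟨?_, hS⟩
  unfold curv
  rw [hHH]
  simp only [map_zero, map_sub, LinearMap.sub_apply, LinearMap.zero_apply]
  have h1 := h.metric H (D x H) x
  have h2 : D H x = D x H + ⁅H, x⁆ := by
    rw [← h.torsion_free H x]
    abel
  rw [h2, map_add] at h1
  have h3 := hS ⁅x, H⁆ x
  have h4 := hS x ⁅H, x⁆
  have h5 : ⁅x, H⁆ = - ⁅H, x⁆ := (lie_skew x H).symm
  rw [h5] at h3 ⊢
  simp only [lie_neg, map_neg, LinearMap.neg_apply] at h3 ⊢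
  have h6 := hB.symm ⁅H, x⁆ ⁅H, x⁆
  linarith

end lc

section algebra

variable {s : ℕ} (h : CarnotHeintze g s)

/-- the sum of the layers `V_i`, `m ≤ i ≤ s` -/
def U (m : ℕ) : Submodule ℝ g := ⨆ i ∈ Finset.Icc m s, h.V i

theorem V_le_U {m i : ℕ} (h1 : m ≤ i) (h2 : i ≤ s) : h.V i ≤ U h m :=
  le_iSup₂_of_le i (Finset.mem_Icc.2 ⟨h1, h2⟩) le_rfl

theorem top_eq : (⊤ : Submodule ℝ g) = span ℝ {h.A} ⊔ U h 1 := by
  refine le_antisymm ?_ le_top
  rw [← h.isInternal.submodule_iSup_eq_top]
  refine iSup_le fun o => ?_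
  cases o with
  | none => exact le_sup_left
  | some i =>
    exact le_trans (V_le_U h (Nat.succ_le_succ (Nat.zero_le _)) i.isLt) le_sup_right

theorem eig_mem {k : ℕ} {z : g} (hz : ⁅h.A, z⁆ = (k : ℝ) • z) (hk : 1 ≤ k) :
    (k ≤ s → z ∈ h.V k) ∧ (s < k → z = 0) := by
  classical
  let f : Module.End ℝ g := LieAlgebra.ad ℝ g h.A
  have hf : ∀ x, f x = ⁅h.A, x⁆ := fun _ => rfl
  let p : Polynomial ℝ := ∏ j ∈ (Finset.range (s + 1)).erase k,
    (Polynomial.X - Polynomial.C (j : ℝ))
  have key : ∀ (m : ℕ) (x : g), ⁅h.A, x⁆ = (m : ℝ) • x →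
      Polynomial.aeval f p x = p.eval (m : ℝ) • x := by
    intro m x hx
    by_cases hx0 : x = 0
    · simp [hx0]
    · exact Module.End.aeval_apply_of_hasEigenvector
        (Module.End.hasEigenvector_iff.2 ⟨Module.End.mem_eigenspace_iff.2 hx, hx0⟩)
  have hev : ∀ m : ℕ, m ≠ k → m ≤ s → p.eval (m : ℝ) = 0 := by
    intro m hm hms
    rw [Polynomial.eval_prod]
    refine Finset.prod_eq_zero (i := m) (Finset.mem_erase.2 ⟨hm, Finset.mem_range.2 (by omega)⟩) ?_
    simp
  have hevk : p.eval (k : ℝ) ≠ 0 := by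
    rw [Polynomial.eval_prod]
    refine Finset.prod_ne_zero_iff.2 fun j hj => ?_
    have hjk : j ≠ k := (Finset.mem_erase.1 hj).1
    simp only [Polynomial.eval_sub, Polynomial.eval_X, Polynomial.eval_C]
    intro h0
    exact hjk (by exact_mod_cast (sub_eq_zero.1 h0).symm)
  -- the range of `p (ad A)`
  have hrange : ∀ W : Submodule ℝ g, (k ≤ s → h.V k ≤ W) → ∀ x, Polynomial.aeval f p x ∈ W := by
    intro W hW x
    have h1 : x ∈ (⨆ o : Option (Fin s),
        o.elim (span ℝ {h.A}) fun i => h.V (i.val + 1) : Submodule ℝ g) := by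
      rw [h.isInternal.submodule_iSup_eq_top]
      exact mem_top
    refine Submodule.iSup_induction _ (motive := fun x => Polynomial.aeval f p x ∈ W) h1 ?_ ?_ ?_
    · intro o x hx
      cases o with
      | none =>
        have hx' : x ∈ span ℝ {h.A} := hx
        obtain ⟨c, rfl⟩ := Submodule.mem_span_singleton.1 hx'
        have h2 : ⁅h.A, c • h.A⁆ = ((0 : ℕ) : ℝ) • (c • h.A) := by simp
        rw [key 0 _ h2, hev 0 (by omega) (Nat.zero_le _), zero_smul]
        exact W.zero_mem
      | some i =>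
        have hx' : x ∈ h.V (i.val + 1) := hx
        have h2 := h.bracket_A (i.val + 1) (by omega) i.isLt x hx'
        rw [key _ _ h2]
        by_cases hik : i.val + 1 = k
        · have h3 : k ≤ s := hik ▸ i.isLt
          rw [hik] at hx'
          exact W.smul_mem _ (hW h3 hx')
        · rw [hev _ hik i.isLt, zero_smul]
          exact W.zero_mem
    · rw [map_zero]
      exact W.zero_mem
    · intro x y hx hy
      rw [map_add]
      exact W.add_mem hx hy
  constructor
  · intro hks
    have h1 := hrange (h.V k) (fun _ => le_rfl) z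
    rw [key k z hz] at h1
    exact (Submodule.smul_mem_iff _ hevk).1 h1
  · intro hks
    have h1 := hrange ⊥ (fun h' => absurd h' (by omega)) z
    rw [key k z hz, Submodule.mem_bot] at h1
    exact (smul_eq_zero.1 h1).resolve_left hevk

/-- brackets of layers -/
theorem bracket_VV {i j : ℕ} (hi : 1 ≤ i) (his : i ≤ s) (hj : 1 ≤ j) (hjs : j ≤ s) {x y : g}
    (hx : x ∈ h.V i) (hy : y ∈ h.V j) :
    (i + j ≤ s → ⁅x, y⁆ ∈ h.V (i + j)) ∧ (s < i + j → ⁅x, y⁆ = 0) := by
  refine eig_mem h ?_ (by omega)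
  rw [leibniz_lie, h.bracket_A i hi his x hx, h.bracket_A j hj hjs y hy, smul_lie, lie_smul,
    ← add_smul]
  push_cast
  rfl

theorem bracket_UU {m : ℕ} (hm : 1 ≤ m) {x y : g} (hx : x ∈ U h 1) (hy : y ∈ U h m) :
    ⁅x, y⁆ ∈ U h (m + 1) := by
  unfold U at hx hy
  induction hx using Submodule.iSup_induction' with
  | zero => rw [zero_lie]; exact zero_mem _
  | add a b _ _ ha hb => rw [add_lie]; exact add_mem ha hb
  | mem i x hx =>
    induction hx using Submodule.iSup_induction' with
    | zero => rw [zero_lie]; exact zero_mem _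
    | add a b _ _ ha hb => rw [add_lie]; exact add_mem ha hb
    | mem hi x hx =>
      rw [Finset.mem_Icc] at hi
      induction hy using Submodule.iSup_induction' with
      | zero => rw [lie_zero]; exact zero_mem _
      | add a b _ _ ha hb => rw [lie_add]; exact add_mem ha hb
      | mem j y hy =>
        induction hy using Submodule.iSup_induction' with
        | zero => rw [lie_zero]; exact zero_mem _
        | add a b _ _ ha hb => rw [lie_add]; exact add_mem ha hb
        | mem hj y hy =>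
          rw [Finset.mem_Icc] at hj
          have h1 := bracket_VV h hi.1 hi.2 (hm.trans hj.1) hj.2 hx hy
          by_cases hs : i + j ≤ s
          · exact V_le_U h (by omega) hs (h1.1 hs)
          · rw [h1.2 (by omega)]
            exact zero_mem _

theorem bracket_AU {m : ℕ} (hm : 1 ≤ m) {y : g} (hy : y ∈ U h m) : ⁅h.A, y⁆ ∈ U h m := by
  unfold U at hy
  induction hy using Submodule.iSup_induction' with
  | zero => rw [lie_zero]; exact zero_mem _
  | add a b _ _ ha hb => rw [lie_add]; exact add_mem ha hb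
  | mem j y hy =>
    induction hy using Submodule.iSup_induction' with
    | zero => rw [lie_zero]; exact zero_mem _
    | add a b _ _ ha hb => rw [lie_add]; exact add_mem ha hb
    | mem hj y hy =>
      rw [Finset.mem_Icc] at hj
      rw [h.bracket_A j (hm.trans hj.1) hj.2 y hy]
      exact Submodule.smul_mem _ _ (V_le_U h hj.1 hj.2 hy)

theorem U_anti {m m' : ℕ} (hm : m ≤ m') : U h m' ≤ U h m :=
  iSup₂_le fun i hi => by
    rw [Finset.mem_Icc] at hi
    exact V_le_U h (hm.trans hi.1) hi.2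

theorem derived_le (x y : g) : ⁅x, y⁆ ∈ U h 1 := by
  have hx : x ∈ span ℝ {h.A} ⊔ U h 1 := by rw [← top_eq]; exact mem_top
  have hy : y ∈ span ℝ {h.A} ⊔ U h 1 := by rw [← top_eq]; exact mem_top
  obtain ⟨a, ha, u, hu, rfl⟩ := Submodule.mem_sup.1 hx
  obtain ⟨b, hb, v, hv, rfl⟩ := Submodule.mem_sup.1 hy
  obtain ⟨c, rfl⟩ := Submodule.mem_span_singleton.1 ha
  obtain ⟨d, rfl⟩ := Submodule.mem_span_singleton.1 hb
  simp only [add_lie, lie_add, smul_lie, lie_smul, lie_self, smul_zero, zero_add]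
  refine add_mem (Submodule.smul_mem _ _ ?_) (add_mem (Submodule.smul_mem _ _ ?_) ?_)
  · rw [← lie_skew]
    exact neg_mem (bracket_AU h le_rfl hu)
  · exact bracket_AU h le_rfl hv
  · exact U_anti h (by omega) (bracket_UU h le_rfl hu hv)

theorem V_one_ne : h.V 1 ≠ ⊥ := by
  intro h1
  by_cases hs : s = 1
  · exact h.top_ne (hs ▸ h1)
  · have h2 := h.one_le
    have h3 := h.bracket_V (s - 1) (by omega) (by omega)
    rw [Nat.sub_add_cancel h2] at h3
    refine h.top_ne (h3 ▸ ?_)
    rw [Submodule.span_eq_bot]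
    rintro z ⟨x, hx, y, _, rfl⟩
    rw [h1, Submodule.mem_bot] at hx
    rw [hx, zero_lie]

/-- a vector of the first layer outside `V₂ ⊕ ⋯ ⊕ V_s` -/
theorem exists_first : ∃ v ∈ U h 1, v ∉ U h 2 := by
  obtain ⟨v, hv, hv0⟩ := Submodule.exists_mem_ne_zero_of_ne_bot (V_one_ne h)
  have h1s := h.one_le
  refine ⟨v, V_le_U h le_rfl h1s hv, fun hv2 => hv0 ?_⟩
  have hdis := h.isInternal.submodule_iSupIndep (some ⟨0, h1s⟩)
  refine Submodule.disjoint_def.1 hdis v hv ?_
  refine (iSup₂_le fun i hi => ?_ : U h 2 ≤ _) hv2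
  rw [Finset.mem_Icc] at hi
  have hlt : i - 1 < s := by omega
  refine le_trans ?_ (le_iSup₂_of_le (some ⟨i - 1, hlt⟩) ?_ le_rfl)
  · have : i - 1 + 1 = i := by omega
    simp only [Option.elim]
    rw [this]
  · intro h0
    have := congrArg Fin.val (Option.some.inj h0)
    simp only at this
    omega

/-- `A` is not in `V₁ ⊕ ⋯ ⊕ V_s` -/
theorem A_notMem : h.A ∉ U h 1 := by
  intro hA
  have hdis := h.isInternal.submodule_iSupIndep none
  refine h.A_ne (Submodule.disjoint_def.1 hdis h.A (Submodule.mem_span_singleton_self _) ?_)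
  refine (iSup₂_le fun i hi => ?_ : U h 1 ≤ _) hA
  rw [Finset.mem_Icc] at hi
  have hlt : i - 1 < s := by omega
  refine le_trans ?_ (le_iSup₂_of_le (some ⟨i - 1, hlt⟩) ?_ le_rfl)
  · have : i - 1 + 1 = i := by omega
    simp only [Option.elim]
    rw [this]
  · exact Option.some_ne_none _

variable [FiniteDimensional ℝ g] {B : LinearMap.BilinForm ℝ g}

/-- a vector `H = A - X` orthogonal to `n` -/
theorem exists_H (hB : IsInner B) : ∃ X ∈ U h 1, ∀ y ∈ U h 1, B y (h.A - X) = 0 := by
  have hr : B.IsRefl := fun x y hxy => by rw [hB.symm]; exact hxy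
  have hc := LinearMap.BilinForm.isCompl_orthogonal_of_restrict_nondegenerate hr
    (restrict_nondeg hB (U h 1))
  have hA : h.A ∈ U h 1 ⊔ B.orthogonal (U h 1) := by rw [hc.sup_eq_top]; exact mem_top
  obtain ⟨X, hX, H, hH, hsum⟩ := Submodule.mem_sup.1 hA
  refine ⟨X, hX, fun y hy => ?_⟩
  have : h.A - X = H := by rw [← hsum]; abel
  rw [this]
  exact LinearMap.BilinForm.mem_orthogonal_iff.1 hH y hy

/-- The eigenvector of `ad (A - X)` for the smallest eigenvalue. -/
theorem exists_low {X : g} (hX : X ∈ U h 1) : ∃ v ∈ U h 1, v ≠ 0 ∧ ⁅h.A - X, v⁆ = v := by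
  let f : g →ₗ[ℝ] g := LieAlgebra.ad ℝ g (h.A - X) - LinearMap.id
  have hf : ∀ x, f x = ⁅h.A - X, x⁆ - x := fun _ => rfl
  have hmaps : ∀ x ∈ U h 1, f x ∈ U h 2 := by
    intro x hx
    have h1 : ∀ y ∈ U h 1, ⁅h.A, y⁆ - y ∈ U h 2 := by
      intro y hy
      unfold U at hy
      induction hy using Submodule.iSup_induction' with
      | zero => simp
      | add a b _ _ ha hb =>
        have : ⁅h.A, a + b⁆ - (a + b) = (⁅h.A, a⁆ - a) + (⁅h.A, b⁆ - b) := by
          rw [lie_add]; abel
        rw [this]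
        exact add_mem ha hb
      | mem j y hy =>
        induction hy using Submodule.iSup_induction' with
        | zero => simp
        | add a b _ _ ha hb =>
          have : ⁅h.A, a + b⁆ - (a + b) = (⁅h.A, a⁆ - a) + (⁅h.A, b⁆ - b) := by
            rw [lie_add]; abel
          rw [this]
          exact add_mem ha hb
        | mem hj y hy =>
          rw [Finset.mem_Icc] at hj
          rw [h.bracket_A j hj.1 hj.2 y hy]
          rcases Nat.eq_or_lt_of_le hj.1 with h1 | h1
          · rw [← h1]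
            simp
          · exact sub_mem (Submodule.smul_mem _ _ (V_le_U h h1 hj.2 hy)) (V_le_U h h1 hj.2 hy)
    have h2 : f x = (⁅h.A, x⁆ - x) - ⁅X, x⁆ := by
      rw [hf, sub_lie]; abel
    rw [h2]
    exact sub_mem (h1 x hx) (bracket_UU h le_rfl hX hx)
  let F : U h 1 →ₗ[ℝ] U h 1 := f.restrict fun x hx => U_anti h (by omega) (hmaps x hx)
  have hF : ¬ Function.Injective F := by
    intro hinj
    have hsurj := LinearMap.injective_iff_surjective.1 hinj
    obtain ⟨v, hv, hv2⟩ := exists_first h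
    obtain ⟨w, hw⟩ := hsurj ⟨v, hv⟩
    have h1 : f w = v := congrArg Subtype.val hw
    exact hv2 (h1 ▸ hmaps w w.2)
  rw [← LinearMap.ker_eq_bot] at hF
  obtain ⟨v, hv, hv0⟩ := Submodule.exists_mem_ne_zero_of_ne_bot hF
  refine ⟨v, v.2, fun h0 => hv0 (Subtype.ext h0), ?_⟩
  have h1 : f v = 0 := congrArg Subtype.val (LinearMap.mem_ker.1 hv)
  rw [hf] at h1
  exact sub_eq_zero.1 h1

/-- The eigenvector of the adjoint of `ad (A - X)` for the largest eigenvalue. -/
theorem exists_high (hB : IsInner B) {X : g} (hX : X ∈ U h 1) :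
    ∃ w ∈ U h 1, w ≠ 0 ∧ ∀ v ∈ U h 1, B ⁅h.A - X, v⁆ w = s * B v w := by
  let f : g →ₗ[ℝ] g := LieAlgebra.ad ℝ g (h.A - X) - (s : ℝ) • LinearMap.id
  have hf : ∀ x, f x = ⁅h.A - X, x⁆ - (s : ℝ) • x := fun _ => rfl
  let F : U h 1 →ₗ[ℝ] U h 1 := f.restrict fun x hx =>
    sub_mem (derived_le h _ _) (Submodule.smul_mem _ _ hx)
  have hF : ¬ Function.Injective F := by
    intro hinj
    obtain ⟨v, hv, hv0⟩ := Submodule.exists_mem_ne_zero_of_ne_bot h.top_ne
    have hvU := V_le_U h h.one_le le_rfl hv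
    have h0 : F ⟨v, hvU⟩ = F 0 := by
      apply Subtype.ext
      have h1 : ((F ⟨v, hvU⟩ : U h 1) : g) = f v := rfl
      rw [h1, map_zero, hf, sub_lie, h.bracket_A s h.one_le le_rfl v hv]
      have h2 : ⁅X, v⁆ = 0 := by
        have h3 : ⁅X, v⁆ ∈ U h (s + 1) :=
          bracket_UU h h.one_le hX (V_le_U h le_rfl le_rfl hv)
        have h4 : U h (s + 1) = ⊥ := by
          unfold U
          rw [Finset.Icc_eq_empty (by omega)]
          simp
        rw [h4] at h3
        exact (Submodule.mem_bot ℝ).1 h3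
      rw [h2]
      simp
    exact hv0 (congrArg Subtype.val (hinj h0))
  have hF' : ¬ Function.Surjective F := fun hs => hF (LinearMap.injective_iff_surjective.2 hs)
  let R : Submodule ℝ g := (LinearMap.range F).map (U h 1).subtype
  obtain ⟨u, hu⟩ : ∃ u : U h 1, ∀ x, F x ≠ u := by
    by_contra hcon
    push Not at hcon
    exact hF' hcon
  have hr : B.IsRefl := fun x y hxy => by rw [hB.symm]; exact hxy
  have hc := LinearMap.BilinForm.isCompl_orthogonal_of_restrict_nondegenerate hr
    (restrict_nondeg hB R)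
  have hA : (u : g) ∈ R ⊔ B.orthogonal R := by rw [hc.sup_eq_top]; exact mem_top
  obtain ⟨r, hR, w, hw, hsum⟩ := Submodule.mem_sup.1 hA
  obtain ⟨r', ⟨x, rfl⟩, rfl⟩ := hR
  have hwu : w = u - F x := by
    rw [← hsum]
    simp
  refine ⟨w, ?_, ?_, ?_⟩
  · rw [hwu]
    exact sub_mem u.2 (F x).2
  · intro h0
    rw [h0] at hwu
    exact hu x (Subtype.ext (sub_eq_zero.1 hwu.symm).symm)
  · intro v hv
    have h1 : f v ∈ R := ⟨F ⟨v, hv⟩, ⟨_, rfl⟩, rfl⟩
    have h2 := LinearMap.BilinForm.mem_orthogonal_iff.1 hw (f v) h1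
    have h3 : B (f v) w = 0 := h2
    rw [hf, map_sub, map_smul, LinearMap.sub_apply, LinearMap.smul_apply, smul_eq_mul] at h3
    linarith

end algebra

/-- Cauchy–Schwarz -/
theorem cs {B : LinearMap.BilinForm ℝ g} (hB : IsInner B) (x y : g) :
    B x y ^ 2 ≤ B x x * B y y := by
  by_cases hy : y = 0
  · simp [hy]
  · have hyy := hB.pos y hy
    have h1 : 0 ≤ B (B y y • x - B x y • y) (B y y • x - B x y • y) := by
      by_cases h0 : B y y • x - B x y • y = 0
      · rw [h0]; simp
      · exact (hB.pos _ h0).le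
    simp only [map_sub, map_smul, LinearMap.sub_apply, LinearMap.smul_apply, smul_eq_mul] at h1
    rw [hB.symm y x] at h1
    have h2 : 0 ≤ B y y * (B x x * B y y - B x y ^ 2) := by nlinarith
    have := nonneg_of_mul_nonneg_right h2 hyy
    linarith

theorem indep_of_orth {B : LinearMap.BilinForm ℝ g} (hB : IsInner B) {x y : g} (hx : x ≠ 0)
    (hy : y ≠ 0) (h : B x y = 0) : LinearIndependent ℝ ![x, y] := by
  rw [LinearIndependent.pair_iff]
  intro a b hab
  have h1 : B (a • x + b • y) x = 0 := by rw [hab]; simp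
  have h2 : B (a • x + b • y) y = 0 := by rw [hab]; simp
  simp only [map_add, map_smul, LinearMap.add_apply, LinearMap.smul_apply, smul_eq_mul, h,
    hB.symm y x, mul_zero, add_zero, zero_add] at h1 h2
  exact ⟨(mul_eq_zero.1 h1).resolve_right (hB.pos x hx).ne',
    (mul_eq_zero.1 h2).resolve_right (hB.pos y hy).ne'⟩

/-- **Every Heintze group of Carnot type is at most `1 / s²`-pinched.** For every Lie algebra `g` of
a Heintze group of Carnot type whose derived group has step `s`, and every left-invariant metric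
`B`: the Levi-Civita connection of `B` exists and is unique, and if all sectional curvatures lie in
`[a, b]` with `a ≤ b < 0`, then `b / a ≤ 1 / s²`. -/
theorem result :
    ∀ (g : Type) [LieRing g] [LieAlgebra ℝ g] [FiniteDimensional ℝ g] (s : ℕ),
      CarnotHeintze g s → ∀ B : LinearMap.BilinForm ℝ g, IsInner B →
        (∃! D : g →ₗ[ℝ] g →ₗ[ℝ] g, IsLeviCivita B D) ∧
        ∀ a b : ℝ, a ≤ b → b < 0 → SecIn B a b → b / a ≤ 1 / (s : ℝ) ^ 2 := by
  intro g _ _ _ s h B hB
  obtain ⟨D, hD⟩ := exists_lc hB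
  refine ⟨⟨D, hD, fun D' hD' => unique_lc hB hD' hD⟩, ?_⟩
  intro a b hab hb hsec
  obtain ⟨X, hX, hXo⟩ := exists_H h hB
  set H := h.A - X with hHdef
  have hH0 : H ≠ 0 := by
    intro h0
    rw [hHdef, sub_eq_zero] at h0
    exact A_notMem h (h0 ▸ hX)
  have hHH : ∀ x y : g, B ⁅x, y⁆ H = 0 := fun x y => hXo _ (derived_le h x y)
  have hHp := hB.pos H hH0
  -- the smallest eigenvalue
  have h1 : b * B H H ≥ -1 := by
    obtain ⟨v, hv, hv0, hev⟩ := exists_low h hX
    rw [← hHdef] at hev
    obtain ⟨hc, hS⟩ := curv_H hB hD hHH v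
    have hvp := hB.pos v hv0
    have hvH : B v H = 0 := hXo v hv
    have hk := (hsec D hD v H (indep_of_orth hB hv0 hH0 hvH)).2
    unfold sec at hk
    rw [hvH] at hk
    have hden : B v v * B H H - 0 ^ 2 = B v v * B H H := by ring
    rw [hden, div_le_iff₀ (mul_pos hvp hHp), hc, hev] at hk
    have h2 : B (D v H) v = - B v v := by
      have := hS v v
      rw [hev] at this
      linarith
    have h3 := cs hB (D v H) v
    rw [h2] at h3
    have h4 : B v v ≤ B (D v H) (D v H) := by
      have : B v v * B v v ≤ B (D v H) (D v H) * B v v := by nlinarith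
      exact le_of_mul_le_mul_right this hvp
    have h5 : B v v * (-1) ≤ B v v * (b * B H H) := by
      rw [h2] at hk
      nlinarith
    exact le_of_mul_le_mul_left h5 hvp
  -- the largest eigenvalue
  have h2 : a * B H H ≤ - (s : ℝ) ^ 2 := by
    obtain ⟨w, hw, hw0, hev⟩ := exists_high h hB hX
    rw [← hHdef] at hev
    obtain ⟨hc, hS⟩ := curv_H hB hD hHH w
    have hwp := hB.pos w hw0
    have hwH : B w H = 0 := hXo w hw
    have hk := (hsec D hD w H (indep_of_orth hB hw0 hH0 hwH)).1
    unfold sec at hk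
    rw [hwH] at hk
    have hden : B w w * B H H - 0 ^ 2 = B w w * B H H := by ring
    rw [hden, le_div_iff₀ (mul_pos hwp hHp), hc] at hk
    -- `[H, w] = - 2 ∇_w H - s w`
    have hDn : ∀ z : g, B (D w H) z = B z (D w H) := fun z => hB.symm _ _
    have hz : D w H ∈ U h 1 := by
      have h3 : D w H = D H w - ⁅H, w⁆ := by
        rw [← hD.torsion_free H w]
        abel
      have h4 : ∀ y : g, B (D w H) H = 0 := by
        intro _
        have := hS w H
        have h5 := hHH H w
        rw [lie_self] at this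
        simp only [map_zero, LinearMap.zero_apply] at this
        linarith
      -- decompose `D w H = t H + u`
      have h5 : D w H ∈ span ℝ {h.A} ⊔ U h 1 := by rw [← top_eq]; exact mem_top
      obtain ⟨a', ha', u, hu, hsum⟩ := Submodule.mem_sup.1 h5
      obtain ⟨t, rfl⟩ := Submodule.mem_span_singleton.1 ha'
      have h6 : D w H = t • H + (t • X + u) := by
        rw [← hsum, hHdef, smul_sub]
        abel
      have h7 : t • X + u ∈ U h 1 := add_mem (Submodule.smul_mem _ _ hX) hu
      have h8 : B (D w H) H = t * B H H := by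
        rw [h6, map_add, LinearMap.add_apply, map_smul, LinearMap.smul_apply, smul_eq_mul,
          hXo _ h7, add_zero]
      have h9 : t = 0 := by
        have := h4 w
        rw [h8] at this
        exact (mul_eq_zero.1 this).resolve_right hHp.ne'
      rw [h6, h9, zero_smul, zero_add]
      rw [h9] at h7
      exact h7
    have h3 : 2 * B (D w H) (D w H) = - B ⁅H, w⁆ (D w H) - s * B (D w H) w := by
      have h4 := hS w (D w H)
      rw [hev _ hz] at h4
      exact h4
    have h4 : B (D w H) w = - (s * B w w) := by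
      have h5 := hS w w
      rw [hev w hw] at h5
      linarith
    have h5 : B (D w H) ⁅H, w⁆ = - (2 * B (D w H) (D w H)) + s * (s * B w w) := by
      rw [hB.symm (D w H) ⁅H, w⁆]
      rw [h4] at h3
      linarith
    rw [h5] at hk
    have h6 := cs hB (D w H) w
    rw [h4] at h6
    have h7 : (s : ℝ) ^ 2 * B w w ≤ B (D w H) (D w H) := by
      have : (s : ℝ) ^ 2 * B w w * B w w ≤ B (D w H) (D w H) * B w w := by nlinarith
      exact le_of_mul_le_mul_right this hwp
    have h8 : B w w * (a * B H H) ≤ B w w * (- (s : ℝ) ^ 2) := by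
      nlinarith
    exact le_of_mul_le_mul_left h8 hwp
  have ha : a < 0 := lt_of_le_of_lt hab hb
  have hs0 : (0 : ℝ) < s := by exact_mod_cast h.one_le
  have hs : (0 : ℝ) < (s : ℝ) ^ 2 := by positivity
  rw [div_le_iff_of_neg ha, one_div]
  have h3 : (s : ℝ) ^ 2 * ((((s : ℝ) ^ 2)⁻¹ * a) * B H H) ≤ (s : ℝ) ^ 2 * (b * B H H) := by
    have h4 : (s : ℝ) ^ 2 * ((((s : ℝ) ^ 2)⁻¹ * a) * B H H) = a * B H H := by
      rw [← mul_assoc, ← mul_assoc, mul_inv_cancel₀ hs.ne', one_mul]
    rw [h4]
    nlinarith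
  have h4 := le_of_mul_le_mul_left h3 hs
  exact le_of_mul_le_mul_right h4 hHp

end Pool.Agent.Results.MP_1a0a4b_gt.PinchingBound
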